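import Pool.Agent.Helper62.BW.Data
import Pool.Agent.Helper62.BL.FewG

/-!
# The frame of the Hasse-Witt functionals
-/

set_option autoImplicit false

open Polynomial Matrix Finset

namespace Pool.Agent.Helper62.BW

open Pool.Agent.Helper62.BM
open Pool.Agent.Helper12.BM (ι_inj two_neK)
open Pool.Agent.Helper62.BM.FG (map_Yh)

section maps

variable {A B : Type} [CommRing A] [CommRing B] {g : ℕ} (φ : A →+* B)

theorem map_dt (F : A[X][X]) : (dt F).map (mapRingHom φ) = dt (F.map (mapRingHom φ)) := by
  ext1 i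
  rw [coeff_map, coeff_dt, coeff_dt, coeff_map, coe_mapRingHom, derivative_map]

theorem map_rel {F : A[X][X]} {W : A[X]} {P S : Fin (2 * g) → A[X][X]} (h : Rel g F W P S) :
    Rel g (F.map (mapRingHom φ)) (W.map φ) (fun l => (P l).map (mapRingHom φ))
      (fun l => (S l).map (mapRingHom φ)) := by
  intro l
  obtain ⟨h1, h2, h3⟩ := h l
  refine ⟨lt_of_le_of_lt natDegree_map_le h1, natDegree_map_le.trans h2, ?_⟩
  have h4 := congrArg (fun q => Polynomial.map (mapRingHom φ) q) h3
  simp only [Polynomial.map_mul, Polynomial.map_add, Polynomial.map_pow, Polynomial.map_X,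
    Polynomial.map_C, Polynomial.map_ofNat, map_dt, coe_mapRingHom] at h4
  rw [derivative_map]
  exact h4

theorem map_Mg (P S : Fin (2 * g) → A[X][X]) (m l : Fin (2 * g)) :
    (Mg P S m l).map φ = Mg (fun l => (P l).map (mapRingHom φ))
      (fun l => (S l).map (mapRingHom φ)) m l := by
  rw [Mg, Matrix.of_apply, Mg, Matrix.of_apply, Polynomial.map_neg, derivative_map]
  congr 1
  have : ((P l).map (mapRingHom φ) + 2 * (derivative (S l)).map (mapRingHom φ)) =
      ((P l) + 2 * derivative (S l)).map (mapRingHom φ) := by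
    rw [Polynomial.map_add, Polynomial.map_mul, Polynomial.map_ofNat]
  rw [this, coeff_map, coe_mapRingHom]

theorem map_Q2F (n : ℕ) (F : A[X][X]) (l m : Fin n) :
    (Q2F n F l m).map φ = Q2F n (F.map (mapRingHom φ)) l m := by
  rw [Q2F, Matrix.of_apply, Q2F, Matrix.of_apply, Polynomial.map_mul, Polynomial.map_sub,
    Polynomial.map_natCast, Polynomial.map_natCast, coeff_map, coe_mapRingHom]

end maps

/-- Clearing denominators in the Bezout relation. -/
theorem sep_clear {R : Type} [CommRing R] [IsDomain R] (F : R[X])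
    (h : (F.map (algebraMap R (FractionRing R))).Separable) :
    ∃ (u v : R[X]) (r : R), r ≠ 0 ∧ u * F + v * derivative F = Polynomial.C r := by
  obtain ⟨u, v, huv⟩ := h
  obtain ⟨b, hb⟩ := IsLocalization.integerNormalization_map_to_map (nonZeroDivisors R) u
  obtain ⟨c, hc⟩ := IsLocalization.integerNormalization_map_to_map (nonZeroDivisors R) v
  set u' := IsLocalization.integerNormalization (nonZeroDivisors R) u with hu'
  set v' := IsLocalization.integerNormalization (nonZeroDivisors R) v with hv'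
  have hinj : Function.Injective (algebraMap R (FractionRing R)) :=
    IsFractionRing.injective R (FractionRing R)
  refine ⟨Polynomial.C (c : R) * u', Polynomial.C (b : R) * v', (b : R) * c,
    mul_ne_zero (nonZeroDivisors.coe_ne_zero b) (nonZeroDivisors.coe_ne_zero c), ?_⟩
  apply Polynomial.map_injective _ hinj
  have hb' : u'.map (algebraMap R (FractionRing R)) =
      Polynomial.C (algebraMap R (FractionRing R) b) * u := by
    rw [hb, Algebra.smul_def]
    rfl
  have hc' : v'.map (algebraMap R (FractionRing R)) =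
      Polynomial.C (algebraMap R (FractionRing R) c) * v := by
    rw [hc, Algebra.smul_def]
    rfl
  rw [Polynomial.map_add, Polynomial.map_mul, Polynomial.map_mul, Polynomial.map_mul,
    Polynomial.map_mul, Polynomial.map_C, Polynomial.map_C, Polynomial.map_C, hb', hc', map_mul,
    map_mul, ← derivative_map]
  calc _ = Polynomial.C (algebraMap R (FractionRing R) b) *
        Polynomial.C (algebraMap R (FractionRing R) c) *
        (u * F.map (algebraMap R (FractionRing R)) +
          v * derivative (F.map (algebraMap R (FractionRing R)))) := by ring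
    _ = _ := by rw [huv, mul_one]

/-- Separability after a homomorphism which does not kill the discriminant. -/
theorem sep_map {R K : Type} [CommRing R] [Field K] (ψ : R →+* K) (F u v : R[X]) (r : R)
    (h : u * F + v * derivative F = Polynomial.C r) (hr : ψ r ≠ 0) : (F.map ψ).Separable := by
  have h1 := congrArg (fun q => Polynomial.map ψ q) h
  simp only [Polynomial.map_add, Polynomial.map_mul, Polynomial.map_C] at h1
  refine ⟨Polynomial.C (ψ r)⁻¹ * u.map ψ, Polynomial.C (ψ r)⁻¹ * v.map ψ, ?_⟩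
  rw [derivative_map]
  calc _ = Polynomial.C (ψ r)⁻¹ * (u.map ψ * F.map ψ + v.map ψ * (derivative F).map ψ) := by ring
    _ = 1 := by
      rw [h1, ← Polynomial.C_mul, inv_mul_cancel₀ hr, Polynomial.C_1]

theorem map_ne {A B : Type} [CommRing A] [CommRing B] (φ : A →+* B) (q : A[X])
    (h : φ q.leadingCoeff ≠ 0) : q.map φ ≠ 0 := by
  intro h0
  apply h
  have := congrArg (fun r => Polynomial.coeff r q.natDegree) h0
  rw [coeff_map, coeff_zero] at this
  exact this

/-- The frame over the reductions. -/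
theorem frame (hHWb : W_HWb) (hHWiso : L_HWiso) (hHWrank : L_HWrank) {A : Type} [CommRing A]
    [IsDomain A] {g : ℕ} {F : A[X][X]} {D : Dat A g} {P S : Fin (2 * g) → A[X][X]}
    (hF : Fam g F D P S) (hOk : D.Ok) :
    ∃ a₁ : A, a₁ ≠ 0 ∧ ∀ (p : ℕ) [Fact p.Prime] (k : Type) [Field k] [CharP k p] (φ : A →+* k),
      2 * g + 2 < p → φ a₁ ≠ 0 → (D.map φ).Ok ∧
      (∀ i l, (D.map φ).W * derivative (Yh p g (2 * g) (F.map (mapRingHom φ)) i l) =
        ∑ m, Yh p g (2 * g) (F.map (mapRingHom φ)) i m * (D.map φ).M m l) ∧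
      (∀ D' : Der (KX k), IsDer D' → ∀ i l,
        D' (((Yh p g (2 * g) (F.map (mapRingHom φ))).map (ι k)) i l) =
          ((Yh p g (2 * g) (F.map (mapRingHom φ))).map (ι k) * (D.map φ).B) i l) ∧
      (∀ c : Fin g → KX k, c ᵥ* (Yh p g (2 * g) (F.map (mapRingHom φ))).map (ι k) = 0 → c = 0) ∧
      (Yh p g (2 * g) (F.map (mapRingHom φ))).map (ι k) * (D.map φ).QX *
        ((Yh p g (2 * g) (F.map (mapRingHom φ))).map (ι k))ᵀ = 0 := by
  classical
  obtain ⟨⟨hmon, hdeg, hsep⟩, hRel, hM, hQ⟩ := hF
  obtain ⟨a₂, ha₂, hok⟩ := w_okMap A g D hOk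
  obtain ⟨u, v, r, hr, huv⟩ := sep_clear F hsep
  refine ⟨a₂ * r.leadingCoeff, mul_ne_zero ha₂ (leadingCoeff_ne_zero.2 hr),
    fun p _ k _ _ φ hp hφ => ?_⟩
  rw [map_mul] at hφ
  have hOk' := hok k φ (left_ne_zero_of_mul hφ)
  have hp2 : p ≠ 2 := by omega
  set F' := F.map (mapRingHom φ) with hF'
  set P' : Fin (2 * g) → k[X][X] := fun l => (P l).map (mapRingHom φ) with hP'
  set S' : Fin (2 * g) → k[X][X] := fun l => (S l).map (mapRingHom φ) with hS'
  have hRel' : Rel g F' (D.map φ).W P' S' := by
    rw [map_W]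
    exact map_rel φ hRel
  have hM' : ∀ m l, (D.map φ).M m l = Mg P' S' m l := by
    intro m l
    show (D.M m l).map φ = _
    rw [hM, map_Mg]
  have hQ' : ∀ m l, (D.map φ).Q m l = Q2F (2 * g) F' m l := by
    intro m l
    show (D.Q m l).map φ = _
    rw [hQ, map_Q2F]
  have hode : ∀ i l, (D.map φ).W * derivative (Yh p g (2 * g) F' i l) =
        ∑ m, Yh p g (2 * g) F' i m * (D.map φ).M m l := by
    intro i l
    rw [hHWb k p hp2 g F' (D.map φ).W P' S' hRel' i l]
    exact Finset.sum_congr rfl fun m _ => by rw [hM']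
  have hW0 : (D.map φ).W ≠ 0 := by
    intro h0
    rcases mul_eq_zero.1 h0 with h1 | h1
    · exact X_sub_C_ne_zero _ h1
    · apply hOk'.2.2.2.2.2.2.1
      rw [h1, eval_zero]
  have hWι : ι k (D.map φ).W ≠ 0 := fun h0 => hW0 (ι_inj k (h0.trans (map_zero _).symm))
  have hmon' : F'.Monic := hmon.map _
  have hdeg' : F'.natDegree = 2 * g + 1 := by
    rw [hF', hmon.natDegree_map, hdeg]
  refine ⟨hOk', hode, fun D' hD' i l => ?_, fun c hc => ?_, ?_⟩
  · rw [Matrix.map_apply, hD', Matrix.mul_apply]
    apply mul_left_cancel₀ hWι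
    rw [← map_mul, hode, map_sum, Finset.mul_sum]
    refine Finset.sum_congr rfl fun m _ => ?_
    rw [Dat.B, Matrix.of_apply, map_mul, Matrix.map_apply]
    field_simp
  · refine hHWrank (KX k) p g (F'.map (ι k)) (by omega) ?_ ?_ c ?_
    · rw [hmon'.natDegree_map, hdeg']
    · have h1 : F'.map (ι k) = F.map ((ι k).comp (mapRingHom φ)) := Polynomial.map_map _ _ _
      rw [h1]
      refine sep_map _ F u v r huv ?_
      intro h0
      exact map_ne φ r (right_ne_zero_of_mul hφ) (ι_inj k (h0.trans (map_zero _).symm))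
    · rw [← map_Yh]; exact hc
  · ext1 i i'
    have h := congrArg (ι k) (hHWiso k[X] p hp2 g F' hdeg'.le i i')
    rw [map_zero, map_sum] at h
    rw [Matrix.zero_apply, Matrix.mul_apply, ← h]
    simp only [map_sum]
    rw [Finset.sum_comm]
    refine Finset.sum_congr rfl fun m _ => ?_
    rw [Matrix.mul_apply, Matrix.transpose_apply, Finset.sum_mul]
    refine Finset.sum_congr rfl fun l _ => ?_
    rw [map_mul, map_mul, Matrix.map_apply, Matrix.map_apply, Dat.QX, Matrix.map_apply, hQ']
    rfl

end Pool.Agent.Helper62.BW
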