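import Pool.Agent.Helper62.BM.LStm

/-!
# General families `y ^ 2 = F(x, t)` with big monodromy: statements

`D : Dat A g` are the data of a connection `∇ = d / dt + M / W`, `W = (t - c) w`, with a horizontal
symplectic bivector `Q` (polynomial, constant determinant), and with a residue of rank one at `t = c`:
`μ M(c) = κ (Q(c) e) eᵀ`. Row vectors are functionals; a functional `y` is horizontal if `y' = y M / W`.
-/

set_option autoImplicit false

open Polynomial Matrix Finset Filter NumberField IsDedekindDomain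

namespace Pool.Agent.Helper62.BW

open Pool.Agent.Helper62.BM

section defs

/-- The data. -/
structure Dat (A : Type) [CommRing A] (g : ℕ) where
  M : Matrix (Fin (2 * g)) (Fin (2 * g)) A[X]
  Q : Matrix (Fin (2 * g)) (Fin (2 * g)) A[X]
  w : A[X]
  c : A
  e : Fin (2 * g) → A
  μ : A
  κ : A
  δ : A
  δ' : A

variable {A : Type} [CommRing A] {g : ℕ}

/-- The denominator. -/
noncomputable def Dat.W (D : Dat A g) : A[X] := (X - Polynomial.C D.c) * D.w

/-- The image of the data under a homomorphism. -/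
noncomputable def Dat.map (D : Dat A g) {B : Type} [CommRing B] (φ : A →+* B) : Dat B g where
  M := D.M.map (mapRingHom φ)
  Q := D.Q.map (mapRingHom φ)
  w := D.w.map φ
  c := φ D.c
  e := fun i => φ (D.e i)
  μ := φ D.μ
  κ := φ D.κ
  δ := φ D.δ
  δ' := φ D.δ'

/-- The vector `Q(c) e`. -/
noncomputable def Dat.r (D : Dat A g) (i : Fin (2 * g)) : A := ∑ l, (D.Q i l).eval D.c * D.e l

/-- The data are nondegenerate. -/
def Dat.Ok (D : Dat A g) : Prop :=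
  D.Qᵀ = -D.Q ∧ D.Q.submatrix (hi : Fin g → Fin (2 * g)) hi = 0 ∧ D.Q.det = Polynomial.C D.δ ∧
    (D.Q.submatrix (lo : Fin g → Fin (2 * g)) hi).det = Polynomial.C D.δ' ∧ D.δ ≠ 0 ∧ D.δ' ≠ 0 ∧
    D.w.eval D.c ≠ 0 ∧ D.μ ≠ 0 ∧ D.κ ≠ 0 ∧ D.e ≠ 0 ∧
    D.W • D.Q.map (fun q => derivative q) + D.M * D.Q + D.Q * D.Mᵀ = 0 ∧
    ∀ i j, D.μ * (D.M i j).eval D.c = D.κ * D.r i * D.e j

end defs

section field

variable {k : Type} [Field k] {g : ℕ}

/-- The connection matrix over the field of rational functions. -/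
noncomputable def Dat.B (D : Dat k g) : Matrix (Fin (2 * g)) (Fin (2 * g)) (KX k) :=
  Matrix.of fun i j => ι k (D.M i j) * (ι k D.W)⁻¹

/-- The bivector over the field of rational functions. -/
noncomputable def Dat.QX (D : Dat k g) : Matrix (Fin (2 * g)) (Fin (2 * g)) (KX k) :=
  D.Q.map (ι k)

/-- `x` is a horizontal vector of power series at `c`: `W x' + M x = 0`. -/
def Dat.Hor (D : Dat k g) (x : Fin (2 * g) → PowerSeries k) : Prop :=
  ∀ a, tay D.c D.W * PowerSeries.derivative k (x a) + ∑ b, tay D.c (D.M a b) * x b = 0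

/-- The row `ξ = adj(Q) x` (horizontal: `W ξ' = Mᵀ ξ`, and `Q ξ = δ x`, `ξ(c) = δ e`). -/
noncomputable def Dat.xi (D : Dat k g) (x : Fin (2 * g) → PowerSeries k) :
    Fin (2 * g) → PowerSeries k :=
  (D.Q.adjugate).map (tay D.c) *ᵥ x

/-- The operator `W ∇` on matrices of polynomials. -/
noncomputable def Dat.wD (D : Dat k g) (θ : Matrix (Fin (2 * g)) (Fin (2 * g)) k[X]) :
    Matrix (Fin (2 * g)) (Fin (2 * g)) k[X] :=
  D.W • θ.map (fun q => derivative q) + D.M * θ - θ * D.M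

/-- For the horizontal `x` with `x(c) = Q(c) e`: the entries of `ξ` are linearly independent over
`k[t]`, and only scalar matrices commute with `x ξᵀ`. -/
def Dat.Strong (D : Dat k g) : Prop :=
  ∀ x : Fin (2 * g) → PowerSeries k, D.Hor x →
    (∀ a, PowerSeries.constantCoeff (x a) = D.r a) →
    (∀ z : Fin (2 * g) → k[X], ∑ a, tay D.c (z a) * D.xi x a = 0 → z = 0) ∧
    ∀ θ : Matrix (Fin (2 * g)) (Fin (2 * g)) k[X],
      θ.map (tay D.c) * Matrix.vecMulVec x (D.xi x) =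
        Matrix.vecMulVec x (D.xi x) * θ.map (tay D.c) → ∃ q : k[X], θ = Matrix.diagonal fun _ => q

/-- The connection `∂ + B` is irreducible over all algebraic extensions of `k(t)`. -/
def Irr (k : Type) [Field k] {n : ℕ} (B : Matrix (Fin n) (Fin n) (KX k)) : Prop :=
  ∀ (E : Type) [Field E] [Algebra (KX k) E] [Algebra.IsAlgebraic (KX k) E] (δ : Der E),
    (∀ q : k[X], δ (algebraMap (KX k) E (ι k q)) = algebraMap (KX k) E (ι k (derivative q))) →
    ∀ W : Submodule E (Fin n → E),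
    (∀ u ∈ W, (fun i => δ (u i)) + (B.map (algebraMap (KX k) E)) *ᵥ u ∈ W) → W = ⊥ ∨ W = ⊤

end field

/-! ## 1-4. Characteristic zero -/

/-- W1. (helper62) -/
def W_OkMap : Prop :=
  ∀ (A : Type) [CommRing A] [IsDomain A] (g : ℕ) (D : Dat A g), D.Ok → ∃ a₀ : A, a₀ ≠ 0 ∧
    ∀ (B : Type) [CommRing B] [IsDomain B] (φ : A →+* B), φ a₀ ≠ 0 → (D.map φ).Ok

/-- W2. Proof. `Z = {z ∈ k(t)^n : ∑ z_a ξ_a = 0}` is stable under `∂ + B` (differentiate, `W ξ' = Mᵀ ξ`), so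
is its span over `k(t)` itself (`E = k(t)`); it is not everything because `ξ ≠ 0`, so it is zero. Let `θ`
commute with `X = x ξᵀ`: `θ x = c x`, `ξᵀ θ = c ξᵀ`, `c ∈ k((s))`; the matrices over `k(t)` commuting with `X`
are an algebra `Θ` stable under `∇ θ = θ' + [B, θ]`, `c` is a homomorphism and injective (`θ x = 0` means that
the rows of `adj(Q)⁻¹ …` annihilate `x`, `x = Q ξ / δ`: use the first part), so `Θ` is commutative and has no
nilpotent elements. Let `λ` be an eigenvalue of `θ` in a finite extension `E` of `k(t)` (with the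
extended derivation), `N = 2 g`, `V = ker (θ - λ) ^ N ≠ 0`. For `u ∈ V`:
`(θ - λ) ^ N (∇ u) = - N (∇ θ - λ') (θ - λ) ^ (N - 1) u`, killed by `θ - λ` (`∇ θ ∈ Θ` commutes with `θ`), so
`∇ u ∈ ker (θ - λ) ^ (N + 1) = V`. By `Irr` `V` is everything, `λ = tr θ / N ∈ k(t)`, `θ - λ ∈ Θ` is nilpotent,
so zero. The extension of the derivation: `Mathlib.FieldTheory.Differential` or formally etale. -/
def W_Strong : Prop :=
  ∀ (k : Type) [Field k] [CharZero k] (g : ℕ), 1 ≤ g → ∀ D : Dat k g, D.Ok → Irr k D.B → D.Strong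

/-- W3. Proof. Down to a subfield: the series `x` over the subfield is also one over the field. Up: let
`x'` be over `k'`; by `L_PS` there is `x` over the fraction field of `A`, and `x'` is its image (uniqueness: the
lowest coefficient `y_m`, `m ≥ 1`, of the difference satisfies `m w(c) y_m + M(c) y_m = 0`, `M(c) ^ 2 = 0`). The
relations are linear equations for the coefficients of `z`, `θ`: write `z = ∑ ε_β z_β` with `ε_β ∈ k'` linearly
independent over the small field and `z_β` over the small field. -/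
def W_Tr : Prop :=
  ∀ (A : Type) [CommRing A] [IsDomain A] (g : ℕ) (D : Dat A g), D.Ok →
    ∀ (k k' : Type) [Field k] [Field k'] [CharZero k] [CharZero k'] (ψ : A →+* k)
    (ψ' : A →+* k'), Function.Injective ψ → Function.Injective ψ' → (D.map ψ).Strong →
    (D.map ψ').Strong

/-- W4. As `L_Van`. -/
def W_Van : Prop :=
  ∀ (k : Type) [Field k] [CharZero k] (g : ℕ) (D : Dat k g), D.Ok →
    ∀ x : Fin (2 * g) → PowerSeries k, D.Hor x →
    (∀ a, PowerSeries.constantCoeff (x a) = D.r a) →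
    ∀ Θ : Submodule k[X] (Matrix (Fin (2 * g)) (Fin (2 * g)) k[X]), (∀ θ ∈ Θ, D.wD θ ∈ Θ) →
    (∀ θ : Matrix (Fin (2 * g)) (Fin (2 * g)) k[X],
      (X - Polynomial.C D.c) • θ ∈ Θ → θ ∈ Θ) →
    (∀ θ ∈ Θ, D.e ⬝ᵥ (θ.map (Polynomial.eval D.c) *ᵥ D.r) = 0) → ∀ θ ∈ Θ,
      D.xi x ⬝ᵥ (θ.map (tay D.c) *ᵥ x) = 0

/-! ## 5-7. The ultraproducts -/

/-- The homomorphism to the ultraproduct. -/
noncomputable def up {A : Type} [CommRing A] (U : Ultrafilter ℕ) {C : ℕ → Type}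
    [∀ i, Field (C i)] (φ : ∀ i, A →+* C i) : A →+* UP U C :=
  (Pool.Agent.Helper62.BM.mk U).comp (RingHom.pi φ)

/-- W5. As `L_Con`: from `L_Res`, `L_PS`, `W_Tr`, `W_Van`, `S_DPM`, `S_Lie`. -/
def W_Con : Prop :=
  ∀ (g : ℕ), 1 ≤ g → ∀ (A : Type) [CommRing A] [IsDomain A] [CharZero A] (Dt : Dat A g), Dt.Ok →
    (Dt.map (algebraMap A (FractionRing A))).Strong → ∀ (U : Ultrafilter ℕ) (C : ℕ → Type)
    [∀ i, Field (C i)] (p : ℕ → ℕ) [∀ i, Fact (p i).Prime] [∀ i, CharP (C i) (p i)],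
    (∀ N : ℕ, ∀ᶠ i in (U : Filter ℕ), N < p i) → ∀ (φ : ∀ i, A →+* C i),
    (∀ a : A, a ≠ 0 → ∀ᶠ i in (U : Filter ℕ), φ i a ≠ 0) → ∀ (Df : ∀ i, Der (KX (C i))),
    (∀ i, IsDer (Df i)) → ∀ (f : KX (UP U C) →+* UP U fun i => KX (C i)),
    (∀ q : Polynomial (∀ i, C i), f (ι _ (q.map (Helper62.BM.mk U))) =
        Helper62.BM.mk U fun i => ι (C i) (q.map (Pi.evalRingHom C i))) →
    (∀ (Dk : Der (KX (UP U C))), IsDer Dk → ∀ z, f (Dk z) = der U Df (f z)) →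
    ∀ A₁ : Matrix (Fin (2 * g)) (Fin (2 * g)) (KX (UP U C)),
      A₁ * (Dt.map (up U φ)).QX + (Dt.map (up U φ)).QX * A₁ᵀ = 0 →
      ∀ θ : Matrix (Fin (2 * g)) (Fin (2 * g)) (KX (UP U C)),
      (θ.map f * mkM U (fun i => pcv (Df i) (Dt.map (φ i)).B (p i))).trace = 0 →
      (θ * A₁).trace = 0

/-- W6. As `L_Ind`, from `W_Con` (over the fields `KX (C i)`), `L_Lagr`, `S_Chart2`. -/
def W_Ind : Prop :=
  ∀ (g : ℕ), 1 ≤ g → ∀ (A : Type) [CommRing A] [IsDomain A] [CharZero A] (Dt : Dat A g), Dt.Ok →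
    (Dt.map (algebraMap A (FractionRing A))).Strong → ∀ (U : Ultrafilter ℕ) (C : ℕ → Type)
    [∀ i, Field (C i)] (p : ℕ → ℕ) [∀ i, Fact (p i).Prime] [∀ i, CharP (C i) (p i)],
    (∀ N : ℕ, ∀ᶠ i in (U : Filter ℕ), N < p i) → ∀ (φ : ∀ i, A →+* C i),
    (∀ a : A, a ≠ 0 → ∀ᶠ i in (U : Filter ℕ), φ i a ≠ 0) → ∀ (D : ∀ i, Der (KX (C i))),
    (∀ i, IsDer (D i)) → ∀ (τ : ∀ i, KX (C i) →+* KX (C i)),
    (∀ i q, τ i (ι (C i) q) = ι (C i) (expand (C i) (p i) q)) →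
    ∀ (f' : KX (UP U fun i => KX (C i)) →+* UP U fun i => KX (C i)),
    (∀ q : Polynomial (∀ i, KX (C i)), f' (ι _ (q.map (Helper62.BM.mk U))) =
        Helper62.BM.mk U fun i => (q.map (Pi.evalRingHom (fun i => KX (C i)) i)).eval₂ (τ i) (tX (C i))) →
    (∀ (Dk : Der (KX (UP U fun i => KX (C i)))),
      IsDer Dk → ∀ z, f' (Dk z) = der U D (f' z)) →
    ∀ (Y : ∀ i, Matrix (Fin g) (Fin (2 * g)) (KX (C i))),
    (∀ i j l, D i (Y i j l) = (Y i * (Dt.map (φ i)).B) j l) →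
    (∀ i, ∀ c : Fin g → KX (C i), c ᵥ* Y i = 0 → c = 0) →
    (∀ i, Y i * (Dt.map (φ i)).QX * (Y i)ᵀ = 0) →
    (∀ᶠ i in (U : Filter ℕ), ((Y i).submatrix id lo).det ≠ 0) ∧
    ∀ G : MvPolynomial (Vars g) (KX (UP U fun i => KX (C i))),
      MvPolynomial.eval₂ f' (fun s : Vars g => Helper62.BM.mk U fun i =>
        frv (Dt.map (φ i)).QX (Y i) s) G = 0 → G = 0

/-- W7. As `L_NV`, by contradiction, with an enumeration `a_0, a_1, …` of `A - {0}`:
`p₀ = i`, `a₀ = a_0 ⋯ a_i`. -/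
def W_NV : Prop :=
  ∀ (g : ℕ), 1 ≤ g → ∀ (A : Type) [CommRing A] [IsDomain A] [CharZero A] [Countable A]
    (Dt : Dat A g), Dt.Ok → (Dt.map (algebraMap A (FractionRing A))).Strong →
    ∀ e A₀ β : ℕ, ∃ (p₀ : ℕ) (a₀ : A), a₀ ≠ 0 ∧ ∀ (p : ℕ) [Fact p.Prime] (C : Type)
    [Field C] [CharP C p] (φ : A →+* C), p₀ ≤ p → φ a₀ ≠ 0 →
    ∀ (D : Der (KX C)), IsDer D → ∀ (Y : Matrix (Fin g) (Fin (2 * g)) (KX C)),
    (∀ j l, D (Y j l) = (Y * (Dt.map φ).B) j l) → (∀ c : Fin g → KX C, c ᵥ* Y = 0 → c = 0) →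
    Y * (Dt.map φ).QX * Yᵀ = 0 →
    (Y.submatrix id lo).det ≠ 0 ∧ NVp C p (frv (Dt.map φ).QX Y) e A₀ β

/-! ## 8-14. Hyperelliptic curves. The outer variable is `x`, the inner one `t` -/

section fam

variable {A : Type} [CommRing A]

/-- The derivative with respect to `t`. -/
noncomputable def dt (F : A[X][X]) : A[X][X] := F.sum fun i a => monomial i (derivative a)

theorem coeff_dt (F : A[X][X]) (i : ℕ) : (dt F).coeff i = derivative (F.coeff i) := by
  unfold dt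
  rw [Polynomial.sum_def, finsetSum_coeff]
  simp only [coeff_monomial, Finset.sum_ite_eq']
  split_ifs with h
  · rfl
  · rw [notMem_support_iff.1 h, derivative_zero]

/-- The bivector, times two. -/
noncomputable def Q2F (n : ℕ) (F : A[X][X]) : Matrix (Fin n) (Fin n) A[X] :=
  Matrix.of fun l m => (((l : ℕ) : A[X]) - ((m : ℕ) : A[X])) * F.coeff ((l : ℕ) + m + 2)

/-- The family of curves is of genus `g`: `F` is monic of degree `2 g + 1` and separable. -/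
def Gen (g : ℕ) (F : A[X][X]) : Prop :=
  F.Monic ∧ F.natDegree = 2 * g + 1 ∧
    (F.map (algebraMap A[X] (FractionRing A[X]))).Separable

/-- `F(x, t₀) = (x - x₀) ^ 2 f₁(x)` has one node, and the total space is smooth there. -/
def Node (F : A[X][X]) (t₀ x₀ : A) (f₁ : A[X]) : Prop :=
  F.map (evalRingHom t₀) = (X - Polynomial.C x₀) ^ 2 * f₁ ∧
    (f₁.map (algebraMap A (FractionRing A))).Separable ∧ f₁.eval x₀ ≠ 0 ∧
    ((dt F).map (evalRingHom t₀)).eval x₀ ≠ 0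

/-- `2 (P_l F + S_l F') = W x ^ l ∂F / ∂t`. -/
def Rel (g : ℕ) (F : A[X][X]) (W : A[X]) (P S : Fin (2 * g) → A[X][X]) : Prop :=
  ∀ l : Fin (2 * g), (P l).natDegree < 2 * g ∧ (S l).natDegree ≤ 2 * g ∧
    2 * (P l * F + S l * derivative F) = Polynomial.C W * X ^ (l : ℕ) * dt F

/-- The Gauss-Manin connection (times `W`): the columns are `- (P_l + 2 S_l')`. -/
noncomputable def Mg {g : ℕ} (P S : Fin (2 * g) → A[X][X]) :
    Matrix (Fin (2 * g)) (Fin (2 * g)) A[X] :=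
  Matrix.of fun m l => -(P l + 2 * derivative (S l)).coeff m

/-- The data of the family. -/
def Fam (g : ℕ) (F : A[X][X]) (D : Dat A g) (P S : Fin (2 * g) → A[X][X]) : Prop :=
  Gen g F ∧ Rel g F D.W P S ∧ D.M = Mg P S ∧ D.Q = Q2F (2 * g) F

end fam

/-- W8. The bivector is horizontal. Checked numerically. Proof. `A` is a domain with `2 ≠ 0`; work over
an extension field `L` of `A[t]`, let `'` be the derivative in `x` (or `z`), `d = W / 2`,
`p, s` = `P_0, S_0`, `σ = p + 2 s'`, `h = x - z`, `x ∈ L` a constant, `z` the variable of polynomials. With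
`K(x, z) = ∑ Q_(l, m) x ^ l z ^ m`: `h ^ 2 K = 2 (F(z) - F(x)) + h (F'(x) + F'(z))` (as in `L_EQ`, helper41's `EQ.lean`).
For a polynomial `G` of degree `< 2 g` let `P_G F + S_G F' = d G F_t`, `T G = P_G + 2 S_G'` (linear; `T z ^ l` is
minus the column of `M`). The claim is `2 d K_(F_t) = T_z K + T_x K` (`M Q` is `- T_x K`, `Q Mᵀ` is `- T_z K`). As
`F, F'` are coprime, for `G = K(x, ·)` one finds (compare with
`h ^ 2 d K F_t = d F_t (2 F(z) + h F'(z)) + (- 2 F(x) + h F'(x)) (p F + s F')`; the difference is a syzygy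
`η (F', - F)`, `deg_z η ≤ 1`; `η(x, x) = - 2 s(x)`, `η_z(x, x) = - σ(x)` because `h ^ 2 S_G` vanishes twice at `z = x`)
`h ^ 2 P_G = 2 d F_t(z) + (- 2 F(x) + h F'(x)) p(z) + (- 2 s(x) + h σ(x)) F'(z)`,
`h ^ 2 S_G = h d F_t(z) + (- 2 F(x) + h F'(x)) s(z) - (- 2 s(x) + h σ(x)) F(z)`, so
`h ^ 3 T_z K = 4 h d F_t(z) + 2 h ^ 2 d F_t'(z) + (- 2 F(x) + h F'(x)) (h σ(z) + 4 s(z)) - 2 h F'(x) s(z)`
`+ 2 h s(x) F'(z) - h ^ 2 σ(x) F'(z) + 8 s(x) F(z) - 2 h σ(x) F(z)`; `h ^ 3 T_x K` is the same with `x ↔ z`, `h ↔ - h`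
(`K(x, z) = - K(z, x)`), and in the sum everything cancels but `2 h d h ^ 2 K_(F_t)`. (Alternatively: by
linearity in `F_t` over a splitting field it is enough to move one root, `S_QbHor`.) -/
def W_Hor : Prop :=
  ∀ (A : Type) [CommRing A] [IsDomain A], (2 : A) ≠ 0 → ∀ (g : ℕ), 1 ≤ g → ∀ (F : A[X][X]),
    Gen g F → ∀ (W : A[X]) (P S : Fin (2 * g) → A[X][X]), Rel g F W P S →
    W • (Q2F (2 * g) F).map (fun q => derivative q) + Mg P S * Q2F (2 * g) F +
      Q2F (2 * g) F * (Mg P S)ᵀ = 0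

/-- W9. `Q2F` is triangular with respect to the antidiagonal `l + m = 2 g - 1`, where its entries are
`l - m` (odd integers); the same holds for the upper right block (as `L_QfDet`). -/
def W_QDet : Prop :=
  ∀ (A : Type) [CommRing A] [IsDomain A] [CharZero A] (g : ℕ), 1 ≤ g → ∀ (F : A[X][X]), F.Monic →
    F.natDegree = 2 * g + 1 → (Q2F (2 * g) F)ᵀ = -Q2F (2 * g) F ∧
    (Q2F (2 * g) F).submatrix (hi : Fin g → Fin (2 * g)) hi = 0 ∧
    ∃ δ δ' : A, δ ≠ 0 ∧ δ' ≠ 0 ∧ (Q2F (2 * g) F).det = Polynomial.C δ ∧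
      ((Q2F (2 * g) F).submatrix (lo : Fin g → Fin (2 * g)) hi).det = Polynomial.C δ'

/-- W10. The local structure at the node, existence. Proof. Over the fraction field `k` of `A` (then
multiply by an element of `A`): `F, F'` are coprime over `k(t)`, so the `d ∈ k[t]` such that for all `l < 2 g`
there are `P, S ∈ k[t][x]`, `deg P < 2 g`, `deg S ≤ 2 g`, with `P F + S F' = d x ^ l F_t`, are an ideal `I ≠ 0`
(the degrees: divide `S` by the monic `F`, then compare degrees). Let `d` generate `I`. If `d` is divisible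
by `(t - t₀) ^ 2`: at `t = t₀` one has `P₀ F₀ + S₀ F₀' = 0`, `F₀ = (x - x₀) ^ 2 f₁`, so (`f₁` separable, `f₁(x₀) ≠ 0`:
`gcd (F₀, F₀') = x - x₀`) `P₀ = - λ (2 f₁ + (x - x₀) f₁')`, `S₀ = λ (x - x₀) f₁`; the coefficient of `t - t₀` at `x = x₀` is
`P₀(x₀) F_t(x₀) + S₀(x₀) F_(x t) = 0`, so `λ = 0`; then `P, S` are divisible by `t - t₀` for all `l`, and
`d / (t - t₀) ∈ I`, a contradiction. So `d = w` or `d = (t - t₀) w` with `w(t₀) ≠ 0`; in the first case
multiply everything by `t - t₀`. -/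
def W_Loc : Prop :=
  ∀ (A : Type) [CommRing A] [IsDomain A] [CharZero A] (g : ℕ), 1 ≤ g → ∀ (F : A[X][X]),
    Gen g F → ∀ (t₀ x₀ : A) (f₁ : A[X]), Node F t₀ x₀ f₁ →
    ∃ (w : A[X]) (P S : Fin (2 * g) → A[X][X]), w.eval t₀ ≠ 0 ∧
      Rel g F ((X - Polynomial.C t₀) * (2 * w)) P S

/-- W11. The residue. Proof. As in `W_Loc`, at `t = t₀`: `P_l = - λ_l (2 f₁ + (x - x₀) f₁')`,
`S_l = λ_l (x - x₀) f₁`; the derivative in `t` of the relation at `(x₀, t₀)`:
`P_l(x₀, t₀) F_t(x₀, t₀) = w(t₀) x₀ ^ l F_t(x₀, t₀)`, so `- 2 λ_l f₁(x₀) = w(t₀) x₀ ^ l`, and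
`P_l + 2 S_l' = λ_l (x - x₀) f₁'` at `t₀`. -/
def W_Rk : Prop :=
  ∀ (A : Type) [CommRing A] [IsDomain A] [CharZero A] (g : ℕ), 1 ≤ g → ∀ (F : A[X][X]),
    Gen g F → ∀ (t₀ x₀ : A) (f₁ : A[X]), Node F t₀ x₀ f₁ →
    ∀ (w : A[X]) (P S : Fin (2 * g) → A[X][X]), Rel g F ((X - Polynomial.C t₀) * (2 * w)) P S →
    ∀ m l : Fin (2 * g), 2 * f₁.eval x₀ * (Mg P S m l).eval t₀ =
      w.eval t₀ * ((X - Polynomial.C x₀) * derivative f₁).coeff m * x₀ ^ (l : ℕ)

/-- W12. `Q(t₀) e = ` the coefficients of `(x - x₀) f₁'`, `e = (x₀ ^ m)`. Proof. With `F₀ = F(x, t₀)`: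
`(x - z) ^ 2 ∑ (l - m) f_(l + m + 2) x ^ l z ^ m = 2 (F₀(z) - F₀(x)) + (x - z) (F₀'(x) + F₀'(z))` (as in `L_EQ`) at `z = x₀`. -/
def W_Qe : Prop :=
  ∀ (A : Type) [CommRing A] [IsDomain A] [CharZero A] (g : ℕ), 1 ≤ g → ∀ (F : A[X][X]),
    F.natDegree = 2 * g + 1 → ∀ (t₀ x₀ : A) (f₁ : A[X]),
    F.map (evalRingHom t₀) = (X - Polynomial.C x₀) ^ 2 * f₁ → ∀ l : Fin (2 * g),
    ∑ m : Fin (2 * g), (Q2F (2 * g) F l m).eval t₀ * x₀ ^ (m : ℕ) =
      ((X - Polynomial.C x₀) * derivative f₁).coeff l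

/-- W13. Horizontality of the Hasse-Witt functionals. Proof. `q = (p - 1) / 2`, `2 q = - 1` in
characteristic `p`: `W ∂_t (x ^ l F ^ q) = q W x ^ l F_t F ^ (q - 1) = 2 q (P F + S F') F ^ (q - 1) =`
`2 q P F ^ q + 2 S (F ^ q)' = (2 q P - 2 S') F ^ q + (2 S F ^ q)'`, and the coefficient of `x ^ (p i + p - 1)` of a
derivative is zero. -/
def W_HWb : Prop :=
  ∀ (R : Type) [CommRing R] (p : ℕ) [Fact p.Prime] [CharP R p], p ≠ 2 → ∀ (g : ℕ) (F : R[X][X])
    (W : R[X]) (P S : Fin (2 * g) → R[X][X]), Rel g F W P S → ∀ (i : Fin g) (l : Fin (2 * g)),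
    W * derivative (Yh p g (2 * g) F i l) = ∑ m, Yh p g (2 * g) F i m * Mg P S m l

/-- W14. The degrees. -/
def W_HWdeg : Prop :=
  ∀ (R : Type) [CommRing R] (p g n N : ℕ) (F : R[X][X]), (∀ i, (F.coeff i).natDegree ≤ N) →
    ∀ (i : Fin g) (l : Fin n), (Yh p g n F i l).natDegree ≤ N * p

/-! ## 15-19. The theorems -/

/-- W15. For large `p` the Hasse-Witt determinant of the family is not zero. -/
def W_Det : Prop :=
  ∀ (g : ℕ), 1 ≤ g → ∀ (A : Type) [CommRing A] [IsDomain A] [CharZero A] [Countable A]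
    (F : A[X][X]) (D : Dat A g) (P S : Fin (2 * g) → A[X][X]), Fam g F D P S → D.Ok →
    (D.map (algebraMap A (FractionRing A))).Strong → ∃ (p₀ : ℕ) (a₀ : A), a₀ ≠ 0 ∧
      ∀ (p : ℕ) [Fact p.Prime] (k : Type) [Field k] [CharP k p] (φ : A →+* k), p₀ ≤ p →
      φ a₀ ≠ 0 →
      ((Yh p g (2 * g) (F.map (mapRingHom φ))).submatrix id (lo : Fin g → Fin (2 * g))).det ≠ 0

/-- W16. As `L_FewG`. -/
def W_FewG : Prop :=
  ∀ (g : ℕ), 1 ≤ g → ∀ (A : Type) [CommRing A] [IsDomain A] [CharZero A] [Countable A]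
    (F : A[X][X]) (D : Dat A g) (P S : Fin (2 * g) → A[X][X]), Fam g F D P S → D.Ok →
    (D.map (algebraMap A (FractionRing A))).Strong →
    ∀ G : MvPolynomial (Fin g × Fin g) A[X], G ≠ 0 →
    ∀ ε : ℝ, 0 < ε → ∃ (p₀ : ℕ) (a₀ : A), a₀ ≠ 0 ∧
      ∀ (p : ℕ) [Fact p.Prime] (k : Type) [Field k] [CharP k p] (φ : A →+* k), p₀ ≤ p →
      φ a₀ ≠ 0 → ∀ T : Finset k, (∀ t ∈ T, t ^ p = t ∧
        MvPolynomial.eval₂ ((evalRingHom t).comp (mapRingHom φ)) (fun s : Fin g × Fin g =>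
          (Yh p g (2 * g) (F.map (mapRingHom φ)) s.1 (lo s.2)).eval t) G = 0) →
        (T.card : ℝ) ≤ ε * p

/-- The coefficientwise derivation. -/
noncomputable def dE {E : Type} [Field E] (δ : Der E) (u : E[X]) : E[X] :=
  u.sum fun i a => monomial i (δ a)

/-- The Gauss-Manin connection of `y ^ 2 = F(x, t)` is irreducible over all algebraic extensions `E`
of `k(t)`: on the forms `u dx / y`, `deg u < 2 g`, it is `∇ u = u' - a / 2 - ∂b / ∂x` if
`a F + b ∂F / ∂x = u ∂F / ∂t`, `deg a < 2 g`, `deg b ≤ 2 g`. -/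
def IrrF (k : Type) [Field k] (g : ℕ) (F : k[X][X]) : Prop :=
  ∀ (E : Type) [Field E] [Algebra (KX k) E] [Algebra.IsAlgebraic (KX k) E] (δ : Der E),
    (∀ q : k[X], δ (algebraMap (KX k) E (ι k q)) = algebraMap (KX k) E (ι k (derivative q))) →
    ∀ W : Submodule E E[X], W ≤ degreeLT E (2 * g) →
    (∀ u ∈ W, ∀ a b : E[X], a.natDegree < 2 * g → b.natDegree ≤ 2 * g →
      a * F.map ((algebraMap (KX k) E).comp (ι k)) +
        b * derivative (F.map ((algebraMap (KX k) E).comp (ι k))) =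
        u * (dt F).map ((algebraMap (KX k) E).comp (ι k)) →
      dE δ u - Polynomial.C 2⁻¹ * a - derivative b ∈ W) → W = ⊥ ∨ W = degreeLT E (2 * g)

/-- W17. The two forms of the irreducibility. -/
def W_Irr : Prop :=
  ∀ (k : Type) [Field k] [CharZero k] (g : ℕ), 1 ≤ g → ∀ (F : k[X][X]) (D : Dat k g)
    (P S : Fin (2 * g) → k[X][X]), Fam g F D P S → D.Ok → IrrF k g F → Irr k D.B

/-- W18. Dense ordinary reduction of generic members. Proof. As the library's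
`Pool.Graph.R_seed8.Y218.Adc.main` (fetch it), with `W_Det` in place of `generic_det`; for each `j` the data are
over `A₀` = a finitely generated subring of `k₀` which contains the coefficients of the `F j`, `t₀ j`, `x₀ j`
(`hData` is applied to `A₀`; `f₁` is then over `A₀` too), `Strong` over `k₀` comes from the hypothesis (`hS`), over
the fraction field of `A₀` by `W_Tr`. -/
def W_Dense : Prop :=
  ∀ (k₀ k σ J : Type) [Finite σ] [Fintype J] [Field k₀] [CharZero k₀] [Field k] [Algebra k₀ k]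
    (t : σ → k), AlgebraicIndependent k₀ t → ∀ (s : J → σ) (g : J → ℕ), (∀ j, 1 ≤ g j) →
    ∀ F : J → k₀[X][X], (∀ j, Gen (g j) (F j)) →
    (∀ j, ∃ (t₀ x₀ : k₀) (f₁ : k₀[X]), Node (F j) t₀ x₀ f₁) → (∀ j, IrrF k₀ (g j) (F j)) →
    ∀ (A : Subalgebra ℤ k), A.FG → ∀ Fm : J → A[X],
    (∀ j, (Fm j).map (algebraMap A k) =
      (F j).map (eval₂RingHom (algebraMap k₀ k) (t (s j)))) → ∀ c : A, c ≠ 0 →
    ∃ N : ℕ, ∀ p : ℕ, N ≤ p → p.Prime → ∃ M : Ideal A, M.IsMaximal ∧ (p : A) ∈ M ∧ c ∉ M ∧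
      ∀ j, (hasseWitt p (g j) ((Fm j).map (Ideal.Quotient.mk M))).det ≠ 0

/-- The member `F(x, φ(t))` of the family. -/
noncomputable def membF {K : Type} [Field K] [NumberField K] (F : (𝓞 K)[X][X]) (φ : (𝓞 K)[X])
    (t : ℕ) : (𝓞 K)[X] :=
  F.map (evalRingHom (φ.eval (t : 𝓞 K)))

/-- The embedding of the coefficients. -/
noncomputable abbrev toK (K : Type) [Field K] [NumberField K] : (𝓞 K)[X] →+* (AlgebraicClosure K)[X] :=
  mapRingHom ((algebraMap K (AlgebraicClosure K)).comp (algebraMap (𝓞 K) K))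

open Classical in
/-- W19. Number fields. As `L_FewK`, helper4's `FewK.lean`; `A` is a finitely generated subring of the
algebraic closure which contains `𝓞 K`, `t₀` and `x₀` (and so the coefficients of `f₁`). The bad `s` are the zeros of
the discriminant of `F` (`a F + b F' = h(t) ≠ 0`) and of `det · G`. -/
def W_FewK : Prop :=
  ∀ (K : Type) [Field K] [NumberField K] (g : ℕ), 1 ≤ g → ∀ (F : (𝓞 K)[X][X]) (φ : (𝓞 K)[X]),
    Gen g F → (∃ (t₀ x₀ : AlgebraicClosure K) (f₁ : (AlgebraicClosure K)[X]),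
      Node (F.map (toK K)) t₀ x₀ f₁) → IrrF (AlgebraicClosure K) g (F.map (toK K)) →
    1 ≤ φ.natDegree → ∀ G : MvPolynomial (Fin g × Fin g) (𝓞 K)[X], G ≠ 0 → ∀ ε : ℝ, 0 < ε →
    {v : HeightOneSpectrum (𝓞 K) | (Ideal.absNorm v.asIdeal).Prime ∧
      ε * Ideal.absNorm v.asIdeal < (((range (Ideal.absNorm v.asIdeal)).filter
        fun t : ℕ => ¬ (GoodOrd g (2 * g + 1) (membF F φ t) v ∧
          Avoids g G (φ.eval (t : 𝓞 K)) (membF F φ t) v)).card : ℝ)}.Finite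

end Pool.Agent.Helper62.BW
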