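import Pool.Agent.Helper62.BW.Data
import Pool.Agent.Helper72.BM.NV

/-!
# W7: the nonvanishing
-/

set_option autoImplicit false

open Polynomial Matrix Finset Filter

namespace Pool.Agent.Helper62.BW

open Pool.Agent.Helper62.BM Pool.Agent.Helper72.BM

theorem ultra_ge (U : Ultrafilter ℕ) (p : ℕ → ℕ) (h : ∀ N : ℕ, ∀ᶠ i in (U : Filter ℕ), N < p i)
    (j : ℕ) : ∀ᶠ i in (U : Filter ℕ), j ≤ i := by
  have h1 : ∀ᶠ i in (U : Filter ℕ), (range j).sup p < p i := h _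
  filter_upwards [h1] with i hi
  by_contra hcon
  push Not at hcon
  have := Finset.le_sup (f := p) (Finset.mem_range.2 hcon)
  omega

theorem w_NV (hInd : W_Ind) (hEmb : S_Emb) (hTau : S_Tau) : W_NV := by
  intro g hg A _ _ _ _ Dt hOk hSt e A₀ β
  have hne : Nonempty {a : A // a ≠ 0} := ⟨⟨1, one_ne_zero⟩⟩
  obtain ⟨en, hen⟩ := exists_surjective_nat {a : A // a ≠ 0}
  set aa : ℕ → A := fun i => ∏ j ∈ range (i + 1), (en j : A) with haa
  have haa0 : ∀ i, aa i ≠ 0 := fun i => Finset.prod_ne_zero_iff.2 fun j _ => (en j).2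
  have hev : ∀ (C : ℕ → Type) [∀ i, Field (C i)] (p : ℕ → ℕ) (φ : ∀ i, A →+* C i),
      (∀ i, φ i (aa i) ≠ 0) → ∀ U : Ultrafilter ℕ, (∀ N : ℕ, ∀ᶠ i in (U : Filter ℕ), N < p i) →
      ∀ a : A, a ≠ 0 → ∀ᶠ i in (U : Filter ℕ), φ i a ≠ 0 := by
    intro C _ p φ hφ U hU a ha
    obtain ⟨j, hj⟩ := hen ⟨a, ha⟩
    filter_upwards [ultra_ge U p hU j] with i hi h0
    apply hφ i
    rw [haa, map_prod]
    refine Finset.prod_eq_zero (Finset.mem_range.2 (show j < i + 1 by omega)) ?_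
    rw [hj]
    exact h0
  -- the determinant
  have hA : ∃ i₀ : ℕ, ∀ (p : ℕ) [Fact p.Prime] (C : Type) [Field C] [CharP C p] (φ : A →+* C),
      i₀ ≤ p → φ (aa i₀) ≠ 0 → ∀ (D : Der (KX C)), IsDer D →
      ∀ (Y : Matrix (Fin g) (Fin (2 * g)) (KX C)),
      (∀ j l, D (Y j l) = (Y * (Dt.map φ).B) j l) →
      (∀ c : Fin g → KX C, c ᵥ* Y = 0 → c = 0) →
      Y * (Dt.map φ).QX * Yᵀ = 0 → (Y.submatrix id lo).det ≠ 0 := by
    by_contra hcon
    push Not at hcon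
    choose p hp C fC cC φ hle hφ D hD Y hY hrk hiso hdet using hcon
    set U : Ultrafilter ℕ := hyperfilter ℕ with hU
    have hN : ∀ N : ℕ, ∀ᶠ i in (U : Filter ℕ), N < p i := by
      intro N
      have h1 : ∀ᶠ i in (atTop : Filter ℕ), N < p i := by
        filter_upwards [eventually_gt_atTop N] with i hi
        exact lt_of_lt_of_le hi (hle i)
      rw [← Nat.cofinite_eq_atTop] at h1
      exact (hyperfilter_le_cofinite (α := ℕ)) h1
    have hT : ∀ i, ∃ τ : KX (C i) →+* KX (C i),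
      (∀ q, τ (ι (C i) q) = ι (C i) (expand (C i) (p i) q)) ∧
      (∀ q : (KX (C i))[X], q.natDegree < p i → q.eval₂ τ (tX (C i)) = 0 → q = 0) ∧
      ∀ D : Der (KX (C i)), IsDer D → ∀ z, D (τ z) = 0 := fun i => hTau (C i) (p i)
    choose τ hτ1 hτ2 hτ3 using hT
    obtain ⟨f', hf1, hf2⟩ := hEmb U (fun i => KX (C i)) (fun i => KX (C i)) τ
        (fun i => tX (C i)) (by
      intro d
      filter_upwards [hN d] with i hi q hq1 hq2
      exact hτ2 i q (lt_of_le_of_lt hq1 hi) hq2)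
    have h := (hInd g hg A Dt hOk hSt U C p hN φ (hev C p φ hφ U hN) D hD τ hτ1 f' hf1
      (by
        intro Dk hDk z
        refine hf2 Dk D hDk (fun i y => hτ3 i (D i) (hD i) y) (fun i => ?_) z
        rw [hD i X, derivative_X, map_one]) Y hY (fun i c hc => by
          by_contra h0
          exact h0 (hrk i c hc)) hiso).1
    obtain ⟨i, hi⟩ := h.exists
    exact hi (hdet i)
  have hB : ∃ i₀ : ℕ, ∀ (p : ℕ) [Fact p.Prime] (C : Type) [Field C] [CharP C p] (φ : A →+* C),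
      i₀ ≤ p → φ (aa i₀) ≠ 0 → ∀ (D : Der (KX C)), IsDer D →
      ∀ (Y : Matrix (Fin g) (Fin (2 * g)) (KX C)),
      (∀ j l, D (Y j l) = (Y * (Dt.map φ).B) j l) →
      (∀ c : Fin g → KX C, c ᵥ* Y = 0 → c = 0) →
      Y * (Dt.map φ).QX * Yᵀ = 0 → NVp C p (frv (Dt.map φ).QX Y) e A₀ β := by
    by_contra hcon
    push Not at hcon
    choose p hp C fC cC φ hle hφ D hD Y hY hrk hiso hNV using hcon
    have hNV' : ∀ i, ∃ G : MvPolynomial (Vars g) (@Polynomial (@Polynomial (C i) _) _), G ≠ 0 ∧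
        G.totalDegree ≤ e ∧
        (∀ m, (G.coeff m).natDegree < β ∧ ∀ b, ((G.coeff m).coeff b).natDegree < A₀) ∧
        MvPolynomial.eval₂ (evT (C i) (p i)) (frv (Dt.map (φ i)).QX (Y i)) G = 0 := by
      intro i
      have h := hNV i
      rw [NVp] at h
      push Not at h
      obtain ⟨G, h1, h2, h3, h4⟩ := h
      exact ⟨G, h1, h2, h3, h4⟩
    choose G hG1 hG2 hG3 hG4 using hNV'
    exact nv_core hEmb hTau C p hle D hD _ (fun U hN τ hτ f' hf1 hf2 G' hG' =>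
      (hInd g hg A Dt hOk hSt U C p hN φ (hev C p φ hφ U hN) D hD τ hτ f' hf1
        hf2 Y hY (fun i c hc => by
          by_contra h0
          exact h0 (hrk i c hc)) hiso).2 G' hG') G hG1 hG2 hG3 hG4
  obtain ⟨p₁, h1⟩ := hA
  obtain ⟨p₂, h2⟩ := hB
  refine ⟨max p₁ p₂, aa p₁ * aa p₂, mul_ne_zero (haa0 _) (haa0 _),
    fun p _ C _ _ φ hp hφ D hD Y hY hrk hiso => ⟨?_, ?_⟩⟩
  · rw [map_mul] at hφ
    exact h1 p C φ ((le_max_left _ _).trans hp) (left_ne_zero_of_mul hφ) D hD Y hY hrk hiso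
  · rw [map_mul] at hφ
    exact h2 p C φ ((le_max_right _ _).trans hp) (right_ne_zero_of_mul hφ) D hD Y hY hrk hiso

end Pool.Agent.Helper62.BW
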