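import Pool.Agent.Helper62.BW.Stm

/-!
# The data of a family with a node; reductions of the data
-/

set_option autoImplicit false

open Polynomial Matrix Finset

namespace Pool.Agent.Helper62.BW

open Pool.Agent.Helper62.BM

/-- Every family with a node has nondegenerate data. -/
def W_Data : Prop :=
  ∀ (A : Type) [CommRing A] [IsDomain A] [CharZero A] (g : ℕ), 1 ≤ g → ∀ (F : A[X][X]),
    Gen g F → ∀ (t₀ x₀ : A) (f₁ : A[X]), Node F t₀ x₀ f₁ →
    ∃ (D : Dat A g) (P S : Fin (2 * g) → A[X][X]), Fam g F D P S ∧ D.Ok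

theorem w_data (hHor : W_Hor) (hQ : W_QDet) (hLoc : W_Loc) (hRk : W_Rk) (hQe : W_Qe) :
    W_Data := by
  intro A _ _ _ g hg F hF t₀ x₀ f₁ hN
  obtain ⟨w, P, S, hw, hR⟩ := hLoc A g hg F hF t₀ x₀ f₁ hN
  obtain ⟨q1, q2, δ, δ', hδ, hδ', q3, q4⟩ := hQ A g hg F hF.1 hF.2.1
  refine ⟨⟨Mg P S, Q2F (2 * g) F, 2 * w, t₀, fun i => x₀ ^ (i : ℕ), 2 * f₁.eval x₀, w.eval t₀,
    δ, δ'⟩, P, S, ⟨hF, hR, rfl, rfl⟩, q1, q2, q3, q4, hδ, hδ', ?_, ?_, hw, ?_, ?_, ?_⟩
  · show (2 * w).eval t₀ ≠ 0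
    rw [eval_mul, eval_ofNat]
    exact mul_ne_zero two_ne_zero hw
  · exact mul_ne_zero two_ne_zero hN.2.2.1
  · intro h
    have h1 := congrFun h ⟨0, by omega⟩
    simp at h1
  · exact hHor A two_ne_zero g hg F hF _ P S hR
  · intro i j
    show 2 * f₁.eval x₀ * (Mg P S i j).eval t₀ = w.eval t₀ *
      (∑ l : Fin (2 * g), (Q2F (2 * g) F i l).eval t₀ * x₀ ^ (l : ℕ)) * x₀ ^ (j : ℕ)
    rw [hRk A g hg F hF t₀ x₀ f₁ hN w P S hR, hQe A g hg F hF.2.1 t₀ x₀ f₁ hN.1]

section maps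

variable {A B : Type} [CommRing A] [CommRing B] {g : ℕ}

theorem map_W (D : Dat A g) (φ : A →+* B) : (D.map φ).W = D.W.map φ := by
  show (X - Polynomial.C (φ D.c)) * D.w.map φ = ((X - Polynomial.C D.c) * D.w).map φ
  rw [Polynomial.map_mul, Polynomial.map_sub, Polynomial.map_X, Polynomial.map_C]

theorem map_r (D : Dat A g) (φ : A →+* B) (i : Fin (2 * g)) : (D.map φ).r i = φ (D.r i) := by
  show ∑ l, ((D.Q i l).map φ).eval (φ D.c) * φ (D.e l) = φ (∑ l, (D.Q i l).eval D.c * D.e l)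
  rw [map_sum]
  refine Finset.sum_congr rfl fun l _ => ?_
  rw [map_mul, Polynomial.eval_map_apply]

theorem map_map {C : Type} [CommRing C] (D : Dat A g) (φ : A →+* B) (ψ : B →+* C) :
    (D.map φ).map ψ = D.map (ψ.comp φ) := by
  have h : (mapRingHom ψ).comp (mapRingHom φ) = mapRingHom (ψ.comp φ) := mapRingHom_comp ψ φ
  have hM : ∀ M : Matrix (Fin (2 * g)) (Fin (2 * g)) A[X],
      (M.map (mapRingHom φ)).map (mapRingHom ψ) = M.map (mapRingHom (ψ.comp φ)) := by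
    intro M
    ext1 i j
    rw [Matrix.map_apply, Matrix.map_apply, Matrix.map_apply, ← h]
    rfl
  unfold Dat.map
  simp only [hM, Polynomial.map_map]
  rfl

theorem okMap_all [IsDomain A] (D : Dat A g) (h : D.Ok) [IsDomain B] (φ : A →+* B)
    (h1 : φ D.δ ≠ 0) (h2 : φ D.δ' ≠ 0) (h3 : φ (D.w.eval D.c) ≠ 0) (h4 : φ D.μ ≠ 0)
    (h5 : φ D.κ ≠ 0) (h6 : (fun i => φ (D.e i)) ≠ 0) : (D.map φ).Ok := by
  obtain ⟨o1, o2, o3, o4, -, -, -, -, -, -, o5, o6⟩ := h
  have hM : ∀ M N : Matrix (Fin (2 * g)) (Fin (2 * g)) A[X],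
      (M * N).map (mapRingHom φ) = M.map (mapRingHom φ) * N.map (mapRingHom φ) := fun M N =>
    Matrix.map_mul
  refine ⟨?_, ?_, ?_, ?_, h1, h2, ?_, h4, h5, h6, ?_, ?_⟩
  · show (D.Q.map (mapRingHom φ))ᵀ = -D.Q.map (mapRingHom φ)
    rw [← Matrix.transpose_map, o1]
    ext1 i j
    rw [Matrix.map_apply, Matrix.neg_apply, Matrix.neg_apply, Matrix.map_apply, map_neg]
  · ext1 i j
    have := congrFun (congrFun o2 i) j
    rw [Matrix.submatrix_apply, Matrix.zero_apply] at this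
    show (D.Q (hi i) (hi j)).map φ = 0
    rw [this, Polynomial.map_zero]
  · show (D.Q.map (mapRingHom φ)).det = Polynomial.C (φ D.δ)
    have := (RingHom.map_det (mapRingHom φ) D.Q).symm
    rw [RingHom.mapMatrix_apply] at this
    rw [this, o3, coe_mapRingHom, Polynomial.map_C]
  · show ((D.Q.submatrix (lo : Fin g → Fin (2 * g)) hi).map (mapRingHom φ)).det =
      Polynomial.C (φ D.δ')
    have := (RingHom.map_det (mapRingHom φ) (D.Q.submatrix (lo : Fin g → Fin (2 * g)) hi)).symm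
    rw [RingHom.mapMatrix_apply] at this
    rw [this, o4, coe_mapRingHom, Polynomial.map_C]
  · show (D.w.map φ).eval (φ D.c) ≠ 0
    rwa [Polynomial.eval_map_apply]
  · have e1 : (D.map φ).W • (D.map φ).Q.map (fun q => derivative q) =
        (D.W • D.Q.map (fun q => derivative q)).map (mapRingHom φ) := by
      ext1 i j
      rw [Matrix.smul_apply, Matrix.map_apply, Matrix.map_apply, Matrix.smul_apply,
        Matrix.map_apply, smul_eq_mul, smul_eq_mul, map_mul, map_W]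
      show D.W.map φ * derivative ((D.Q i j).map φ) = _
      rw [derivative_map]
      rfl
    have e2 : (D.map φ).M * (D.map φ).Q = (D.M * D.Q).map (mapRingHom φ) := (hM _ _).symm
    have e3 : (D.map φ).Q * (D.map φ).Mᵀ = (D.Q * D.Mᵀ).map (mapRingHom φ) := (hM _ _).symm
    rw [e1, e2, e3, ← Matrix.map_add _ (map_add _), ← Matrix.map_add _ (map_add _), o5,
      Matrix.map_zero _ (map_zero _)]
  · intro i j
    rw [map_r]
    show φ D.μ * ((D.M i j).map φ).eval (φ D.c) = φ D.κ * φ (D.r i) * φ (D.e j)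
    rw [Polynomial.eval_map_apply, ← map_mul, ← map_mul, ← map_mul, o6]

theorem w_okMap : W_OkMap := by
  intro A _ _ g D h
  have h' := h
  obtain ⟨-, -, -, -, o1, o2, o3, o4, o5, o6, -, -⟩ := h'
  obtain ⟨i, hi'⟩ : ∃ i, D.e i ≠ 0 := by
    by_contra hcon
    push Not at hcon
    exact o6 (funext hcon)
  refine ⟨D.δ * D.δ' * D.w.eval D.c * D.μ * D.κ * D.e i,
    mul_ne_zero (mul_ne_zero (mul_ne_zero (mul_ne_zero (mul_ne_zero o1 o2) o3) o4) o5) hi',
    fun B _ _ φ hφ => ?_⟩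
  simp only [map_mul] at hφ
  have k1 := left_ne_zero_of_mul hφ
  have k2 := left_ne_zero_of_mul k1
  have k3 := left_ne_zero_of_mul k2
  have k4 := left_ne_zero_of_mul k3
  refine okMap_all D h φ (left_ne_zero_of_mul k4) (right_ne_zero_of_mul k4)
    (right_ne_zero_of_mul k3) (right_ne_zero_of_mul k2) (right_ne_zero_of_mul k1) ?_
  intro h0
  exact right_ne_zero_of_mul hφ (congrFun h0 i)

/-- Injective homomorphisms. -/
theorem ok_inj [IsDomain A] [IsDomain B] (D : Dat A g) (h : D.Ok) (φ : A →+* B)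
    (hφ : Function.Injective φ) : (D.map φ).Ok := by
  obtain ⟨a₀, ha, h1⟩ := w_okMap A g D h
  refine h1 B φ fun h0 => ha (hφ (h0.trans (map_zero φ).symm))

end maps

end Pool.Agent.Helper62.BW
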