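import Pool.Agent.Helper62.BW.Frame

/-!
# W15, W16: the Hasse-Witt determinant, and the soft Stepanov method for general families
-/

set_option autoImplicit false

open Polynomial Matrix Finset

namespace Pool.Agent.Helper62.BW

open Pool.Agent.Helper62.BM
open Pool.Agent.Helper36.BM (mon shift degree_shift mon_ode aeval_scaled)
open Pool.Agent.Helper12.BM (stepJ Jd Mm mon_ode' map_Mm natDegree_mon
  Fc sum_Fc M0 ode_zero ι_inj two_neK)
open Pool.Agent.Helper62.BM.FG (cs Rm eval_Rm ode2)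

theorem w_Det (hNV : W_NV) (hFrac : S_Frac) (hHWb : W_HWb) (hHWiso : L_HWiso)
    (hHWrank : L_HWrank) : W_Det := by
  intro g hg A _ _ _ _ F D P S hF hOk hSt
  obtain ⟨a₁, ha₁, hfr⟩ := frame hHWb hHWiso hHWrank hF hOk
  obtain ⟨p₂, a₂, ha₂, hnv⟩ := hNV g hg A D hOk hSt 0 0 0
  refine ⟨p₂ + 2 * g + 3, a₁ * a₂, mul_ne_zero ha₁ ha₂, fun p _ k _ _ φ hp hφ => ?_⟩
  rw [map_mul] at hφ
  obtain ⟨-, -, h1, h2, h3⟩ := hfr p k φ (by omega) (left_ne_zero_of_mul hφ)
  obtain ⟨D', hD', -⟩ := hFrac k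
  have h4 := (hnv p k φ (by omega) (right_ne_zero_of_mul hφ) D' hD' _ (h1 D' hD') h2 h3).1
  intro h0
  apply h4
  have h5 : (((Yh p g (2 * g) (F.map (mapRingHom φ))).map (ι k)).submatrix id
      (lo : Fin g → _)).det =
      ι k (((Yh p g (2 * g) (F.map (mapRingHom φ))).submatrix id lo).det) := by
    rw [RingHom.map_det]
    rfl
  rw [h5, h0, map_zero]

theorem w_FewG (hStep : S_Step) (hNV : W_NV) (hFrac : S_Frac) (hHWb : W_HWb)
    (hHWdeg : W_HWdeg) (hHWiso : L_HWiso) (hHWrank : L_HWrank) : W_FewG := by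
  intro g hg A _ _ _ _ F D P S hF hOk hSt G hG ε hε
  classical
  obtain ⟨a₃, ha₃, hfr⟩ := frame hHWb hHWiso hHWrank hF hOk
  obtain ⟨o1, o2, o3, o4, o5, o6, o7, -⟩ := id hOk
  have hWne : D.W ≠ 0 := by
    intro h0
    rcases mul_eq_zero.1 h0 with h1 | h1
    · exact X_sub_C_ne_zero _ h1
    · apply o7
      rw [h1, eval_zero]
  set Q2 : Matrix (Fin (2 * g)) (Fin (2 * g)) A[X] := (2 : A[X]) • D.Q with hQ2
  have hs0 : cs (g := g) Q2 ≠ 0 := by
    have h2 : (2 : A[X]) ≠ 0 := two_ne_zero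
    rw [cs]
    refine mul_ne_zero h2 ?_
    have h3 : Q2.submatrix (lo : Fin g → Fin (2 * g)) hi =
        (2 : A[X]) • D.Q.submatrix (lo : Fin g → Fin (2 * g)) hi := rfl
    rw [h3, Matrix.det_smul, o4]
    refine mul_ne_zero (pow_ne_zero _ h2) ?_
    rwa [Ne, Polynomial.C_eq_zero]
  set d := G.totalDegree with hd
  set s := cs (g := g) Q2 with hs
  set qh := s * D.W with hqh
  have hq0 : qh ≠ 0 := mul_ne_zero hs0 hWne
  set bh : Matrix (Fin (2 * g)) (Fin (2 * g)) A[X] := Matrix.of fun m l =>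
    (if m = l then D.W * derivative s else 0) + s * D.M m l with hbh
  have hη₀ : (MvPolynomial.C s : MvPolynomial (Vars g) A[X]) ^ d *
      MvPolynomial.rename (Sum.inl : Fin g × Fin g → Vars g) G ≠ 0 := by
    refine mul_ne_zero (pow_ne_zero _ ?_) ?_
    · rwa [Ne, MvPolynomial.C_eq_zero]
    · intro h0
      apply hG
      apply MvPolynomial.rename_injective _ Sum.inl_injective
      rw [h0, map_zero]
  set N := F.support.sup fun i => (F.coeff i).natDegree with hN
  obtain ⟨e, A₀, β, p₁, a₁, ha₁, hst⟩ := stepJ hStep A (Vars g) (Jd g (2 * g) d)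
    ((MvPolynomial.C s) ^ d * MvPolynomial.rename (Sum.inl : Fin g × Fin g → Vars g) G)
    (fun m => ∏ x, (Rm Q2 x.1 x.2) ^ m.1 x) hη₀ qh (M0 s qh bh G) (Mm bh) hq0 ε hε
    ((univ.sup fun m : Jd g (2 * g) d => (Fc s G m).natDegree) + d * (s.natDegree + N))
  set Dm := univ.sup fun m : Jd g (2 * g) d => (Fc s G m).natDegree with hDm
  obtain ⟨p₂, a₂, ha₂, hnv⟩ := hNV g hg A D hOk hSt e A₀ β
  refine ⟨p₁ + p₂ + 2 * g + 3, a₁ * a₂ * a₃, mul_ne_zero (mul_ne_zero ha₁ ha₂) ha₃, ?_⟩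
  intro p _ k _ _ φ hp hφ T hT
  rw [map_mul, map_mul] at hφ
  have hφ₁ := left_ne_zero_of_mul (left_ne_zero_of_mul hφ)
  have hφ₂ := right_ne_zero_of_mul (left_ne_zero_of_mul hφ)
  have hφ₃ := right_ne_zero_of_mul hφ
  obtain ⟨hOk', hode', hor, hrk, hI⟩ := hfr p k φ (by omega) hφ₃
  have hp2 : p ≠ 2 := by omega
  have h2 : (2 : KX k) ≠ 0 := by
    have := two_neK (k := k) p 2 (by norm_num) (by omega)
    exact_mod_cast this
  obtain ⟨D', hD', -⟩ := hFrac k
  set Yp := Yh p g (2 * g) (F.map (mapRingHom φ)) with hYp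
  set Y := Yp.map (ι k) with hY
  obtain ⟨hYdet, hNVp⟩ := hnv p k φ (by omega) hφ₂ D' hD' Y (hor D' hD') hrk hI
  have hQ22' : ((D.map φ).QX).submatrix (hi : Fin g → Fin (2 * g)) hi = 0 := by
    ext1 i j
    have := congrFun (congrFun hOk'.2.1 i) j
    rw [Matrix.submatrix_apply, Matrix.zero_apply] at this
    rw [Matrix.submatrix_apply, Dat.QX, Matrix.map_apply, this, map_zero, Matrix.zero_apply]
  have hQa' : ((D.map φ).QX)ᵀ = -(D.map φ).QX := by
    ext1 i j
    have := congrFun (congrFun hOk'.1 i) j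
    rw [Matrix.transpose_apply, Matrix.neg_apply] at this
    rw [Matrix.transpose_apply, Dat.QX, Matrix.map_apply, this, map_neg, Matrix.neg_apply,
      Matrix.map_apply]
  set bh' : Matrix (Fin (2 * g)) (Fin (2 * g)) k[X] := Matrix.of fun m l =>
    (if m = l then (D.map φ).W * derivative (s.map φ) else 0) +
      s.map φ * (D.map φ).M m l with hbh'
  have hbφ : ∀ l m, (bh l m).map φ = bh' l m := by
    intro l m
    rw [hbh, hbh', Matrix.of_apply, Matrix.of_apply, Polynomial.map_add, Polynomial.map_mul]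
    split_ifs
    · rw [Polynomial.map_mul, ← derivative_map, map_W]
      rfl
    · rw [Polynomial.map_zero]
      rfl
  have hode : ∀ i l, qh.map φ * derivative (((s.map φ) • Yp) i l) =
      ∑ m, ((s.map φ) • Yp) i m * bh' m l := by
    intro i l
    rw [hqh, Polynomial.map_mul, ← map_W]
    exact ode2 (s.map φ) _ (D.map φ).M Yp hode' i l
  have hZ₀ := sum_Fc (d := d) φ s G le_rfl Yp
  have hdY : ∀ i l, (((s.map φ) • Yp) i l).natDegree ≤ (s.natDegree + N) * p := by
    intro i l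
    rw [Matrix.smul_apply, smul_eq_mul]
    refine natDegree_mul_le.trans ?_
    have h1 : (Yp i l).natDegree ≤ N * p := hHWdeg k p g (2 * g) N (F.map (mapRingHom φ)) (fun j => by
      rw [coeff_map, coe_mapRingHom]
      refine natDegree_map_le.trans ?_
      by_cases hj : j ∈ F.support
      · exact Finset.le_sup (f := fun i => (F.coeff i).natDegree) hj
      · rw [notMem_support_iff.1 hj, natDegree_zero]
        exact Nat.zero_le _) i l
    have h3 : (s.map φ).natDegree ≤ s.natDegree := natDegree_map_le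
    have h4 : s.natDegree ≤ s.natDegree * p := Nat.le_mul_of_pos_right _ (by omega)
    rw [add_mul]
    omega
  have hdm : ∀ m : Jd g (2 * g) d, (mon ((s.map φ) • Yp) m.1).natDegree ≤
        d * (s.natDegree + N) * p := by
    intro m
    refine (natDegree_mon _ _ hdY m.1).trans ?_
    rw [mul_assoc]
    exact Nat.mul_le_mul_right _ m.2
  refine hst p k φ (by omega) hφ₁ ((s.map φ) ^ d * MvPolynomial.eval₂ (mapRingHom φ)
    (fun x : Fin g × Fin g => Yp x.1 (lo x.2)) G)
    (fun m => mon ((s.map φ) • Yp) m.1) (frv (D.map φ).QX Y)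
    ?_ ?_ ?_ ?_ ?_ ?_ hNVp T ?_
  · rw [map_mul, map_pow, MvPolynomial.eval₂_mul, MvPolynomial.eval₂_pow, MvPolynomial.eval₂_C,
      MvPolynomial.eval₂_rename, MvPolynomial.eval₂_comp_left]
    rfl
  · intro m
    have h1 : ∀ x : Fin g × Fin (2 * g), MvPolynomial.eval₂ ((ι k).comp (mapRingHom φ))
        (frv (D.map φ).QX Y) (Rm Q2 x.1 x.2) = ι k (((s.map φ) • Yp) x.1 x.2) := by
      intro x
      have h3 := eval_Rm ((ι k).comp (mapRingHom φ)) Q2 h2 (D.map φ).QX
        Y hQa' hQ22' hYdet hI ?_ x.1 x.2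
      · rw [h3, Matrix.smul_apply, smul_eq_mul, map_mul]
        rfl
      · intro l m
        rw [hQ2, Matrix.smul_apply, smul_eq_mul, map_mul, map_ofNat]
        rfl
    rw [mon, map_prod, ← MvPolynomial.coe_eval₂Hom, map_prod]
    refine Finset.prod_congr rfl fun x _ => ?_
    rw [map_pow, map_pow, MvPolynomial.coe_eval₂Hom, h1]
  · rw [hZ₀]
    exact ode_zero φ s qh bh bh' hbφ G _ hode
  · intro m
    rw [mon_ode' _ _ _ hode m]
    refine Finset.sum_congr rfl fun m' _ => ?_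
    rw [map_Mm φ bh bh' hbφ]
  · rw [hZ₀, add_mul]
    refine natDegree_sum_le_of_forall_le _ _ fun m _ => ?_
    refine natDegree_mul_le.trans (Nat.add_le_add ?_ (hdm m))
    have h1 : ((Fc s G m).map φ).natDegree ≤ Dm := by
      refine natDegree_map_le.trans ?_
      exact Finset.le_sup (f := fun m : Jd g (2 * g) d => (Fc s G m).natDegree) (Finset.mem_univ m)
    exact h1.trans (Nat.le_mul_of_pos_right _ (by omega))
  · intro m
    refine (hdm m).trans ?_
    rw [add_mul]
    exact Nat.le_add_left _ _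
  · intro t ht
    obtain ⟨h1, h3⟩ := hT t ht
    refine ⟨h1, ?_⟩
    rw [eval_mul]
    have h4 : eval t (MvPolynomial.eval₂ (mapRingHom φ)
        (fun x : Fin g × Fin g => Yp x.1 (lo x.2)) G) = 0 := by
      rw [← coe_evalRingHom, MvPolynomial.eval₂_comp_left]
      exact h3
    rw [h4, mul_zero]

end Pool.Agent.Helper62.BW
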