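import Pool.Agent.Helper62.BW.Stm
import Pool.Graph.R_pool_sql_team_seeded_3997aac3.Q267.DC.Sup2

/-!
# The reduction of a member modulo a place depends only on `t` modulo the place
-/

set_option autoImplicit false

open Finset Polynomial

namespace Pool.Agent.Helper62.BW

open NumberField IsDedekindDomain
open Pool.Agent.Helper62.BM
open Pool.Agent.Q267.OD (charP_res)

theorem wMod (K : Type) [Field K] [NumberField K] (g n : ℕ) (F : (𝓞 K)[X][X]) (φ : (𝓞 K)[X])
    (G : MvPolynomial (Fin g × Fin g) (𝓞 K)[X]) (v : HeightOneSpectrum (𝓞 K))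
    (hv : (Ideal.absNorm v.asIdeal).Prime) (t : ℕ) :
    ((GoodOrd g n (membF F φ t) v ∧ Avoids g G (φ.eval (t : 𝓞 K)) (membF F φ t) v) ↔
      (GoodOrd g n (membF F φ (t % Ideal.absNorm v.asIdeal)) v ∧
        Avoids g G (φ.eval ((t % Ideal.absNorm v.asIdeal : ℕ) : 𝓞 K))
          (membF F φ (t % Ideal.absNorm v.asIdeal)) v)) := by
  have := charP_res v hv
  have h1 : (t : v.asIdeal.ResidueField) =
      ((t % Ideal.absNorm v.asIdeal : ℕ) : v.asIdeal.ResidueField) :=
    (CharP.natCast_eq_natCast' _ (Ideal.absNorm v.asIdeal) (Nat.mod_modEq _ _)).symm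
  have hs : algebraMap (𝓞 K) v.asIdeal.ResidueField (φ.eval (t : 𝓞 K)) =
      algebraMap (𝓞 K) v.asIdeal.ResidueField
        (φ.eval ((t % Ideal.absNorm v.asIdeal : ℕ) : 𝓞 K)) := by
    rw [← Polynomial.eval₂_at_apply, ← Polynomial.eval₂_at_apply, map_natCast, map_natCast, h1]
  have hc : (algebraMap (𝓞 K) v.asIdeal.ResidueField).comp
      (evalRingHom (φ.eval (t : 𝓞 K))) =
      (algebraMap (𝓞 K) v.asIdeal.ResidueField).comp
        (evalRingHom (φ.eval ((t % Ideal.absNorm v.asIdeal : ℕ) : 𝓞 K))) := by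
    ext a
    · simp
    · simpa using hs
  have hrd : rd v (membF F φ t) = rd v (membF F φ (t % Ideal.absNorm v.asIdeal)) := by
    unfold rd membF
    rw [Polynomial.map_map, Polynomial.map_map, hc]
  unfold GoodOrd Avoids
  rw [hrd, hc]

end Pool.Agent.Helper62.BW
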