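import Pool.Agent.Helper62.BM.LMain
import Pool.Agent.Helper62.BW.Data
import Pool.Agent.Helper62.BW.NV
import Pool.Agent.Helper62.BW.Few
import Pool.Agent.Helper62.BW.Mod
import Pool.Agent.Helper13.BW.Ind
import Pool.Agent.Helper18.BW.HW
import Pool.Agent.Helper18.BW.Hor
import Pool.Agent.Helper31.BW.Loc
import Pool.Agent.Helper38.BW.Van
import Pool.Agent.Helper61.BW.WCon
import Pool.Agent.Helper82.BW.QDet
import Pool.Agent.Helper90.BW.Irr
import Pool.Agent.Helper90.BW.Tr
import Pool.Agent.Helper93.BW.RkQe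

/-!
# Assembly: general families with big monodromy
-/

set_option autoImplicit false

namespace Pool.Agent.Helper62.BW

open Pool.Agent.Helper62.BM

theorem wData : W_Data :=
  w_data Pool.Agent.Helper18.BW.w_Hor Pool.Agent.Helper82.BW.w_QDet Pool.Agent.Helper31.BW.w_loc
    Pool.Agent.Helper93.BW.w_rk Pool.Agent.Helper93.BW.w_qe

theorem wCon : W_Con :=
  Pool.Agent.Helper61.BW.w_con l_Res l_PS Pool.Agent.Helper90.BW.w_tr Pool.Agent.Helper38.BW.w_Van
    w_okMap Pool.Agent.Helper15.BM.lie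

theorem wInd : W_Ind := Pool.Agent.Helper13.BW.w_ind wCon

theorem wNV : W_NV := w_NV wInd Pool.Agent.Helper72.BM.emb Pool.Agent.Helper12.BM.tau

theorem wFewG : W_FewG :=
  w_FewG Pool.Agent.Helper4.BM.step wNV Pool.Agent.Helper12.BM.frac Pool.Agent.Helper18.BW.w_HWb
    Pool.Agent.Helper18.BW.w_HWdeg l_HWiso Pool.Agent.Helper18.BL.l_HWrank

theorem wDet : W_Det :=
  w_Det wNV Pool.Agent.Helper12.BM.frac Pool.Agent.Helper18.BW.w_HWb l_HWiso
    Pool.Agent.Helper18.BL.l_HWrank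

end Pool.Agent.Helper62.BW
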